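import Pool.Agent.Helper19.HO.Defs

/-!
# Project HO (MP_19c155_gt), piece HO-8: area formula with two sheets
-/

open MeasureTheory Set Metric Filter Module
open scoped NNReal Topology RealInnerProductSpace ENNReal Real ContDiff Manifold

namespace Pool.Agent.Helper19.HO

section Crofton

variable {E : Type*} [NormedAddCommGroup E] [InnerProductSpace ℝ E] [FiniteDimensional ℝ E]
  [MeasurableSpace E] [BorelSpace E]

theorem ball_add_le [Nontrivial E] {F : E → E} (hF : ContDiffOn ℝ 1 F {0}ᶜ)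
    (hs : ∀ z, z ≠ 0 → ∃ y, y ≠ 0 ∧ F y = z) {U₁ U₂ O : Set E} (hU₁ : IsOpen U₁) (hO : IsOpen O)
    (hOb : O ⊆ ball 0 1) (h01 : (0 : E) ∉ U₁) (h02 : (0 : E) ∉ U₂) (hd : Disjoint U₁ U₂)
    (h1 : O ⊆ F '' U₁) (h2 : O ⊆ F '' U₂) :
    volume (ball (0 : E) 1) + volume O
      ≤ ∫⁻ y, {y : E | ‖F y‖ < 1}.indicator (fun y => ENNReal.ofReal |(fderiv ℝ F y).det|) y := by
  have hopen : IsOpen ({0}ᶜ : Set E) := isOpen_compl_singleton
  have hcont : ContinuousOn F {0}ᶜ := hF.continuousOn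
  have hder : ∀ y ∈ ({0}ᶜ : Set E), HasFDerivAt F (fderiv ℝ F y) y := fun y hy =>
    ((hF.contDiffAt (hopen.mem_nhds hy)).differentiableAt (by simp)).hasFDerivAt
  set s1 : Set E := U₁ ∩ ({0}ᶜ ∩ F ⁻¹' O) with hs1
  set T : Set E := {0}ᶜ ∩ F ⁻¹' (ball 0 1) with hT
  have hs1o : IsOpen s1 := hU₁.inter (hcont.isOpen_inter_preimage hopen hO)
  have hTo : IsOpen T := hcont.isOpen_inter_preimage hopen isOpen_ball
  have hs1T : s1 ⊆ T := fun y hy => ⟨hy.2.1, hOb hy.2.2⟩
  have hs2m : MeasurableSet (T \ s1) := hTo.measurableSet.diff hs1o.measurableSet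
  have e1 : volume O ≤ ∫⁻ y in s1, ENNReal.ofReal |(fderiv ℝ F y).det| := by
    refine le_trans (measure_mono ?_) (addHaar_image_le_lintegral_abs_det_fderiv volume
      hs1o.measurableSet (fun y hy => (hder y hy.2.1).hasFDerivWithinAt))
    intro z hz
    obtain ⟨y, hy, rfl⟩ := h1 hz
    exact ⟨y, ⟨hy, fun h => h01 (by rw [mem_singleton_iff] at h; rwa [← h]), hz⟩, rfl⟩
  have e2 : volume (ball (0 : E) 1) ≤ ∫⁻ y in T \ s1, ENNReal.ofReal |(fderiv ℝ F y).det| := by
    have hb : volume (ball (0 : E) 1) = volume (ball (0 : E) 1 \ {0}) := by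
      rw [measure_sdiff_null (measure_singleton 0)]
    rw [hb]
    refine le_trans (measure_mono ?_) (addHaar_image_le_lintegral_abs_det_fderiv volume
      hs2m (fun y hy => (hder y hy.1.1).hasFDerivWithinAt))
    rintro z ⟨hzb, hz0⟩
    by_cases hzO : z ∈ O
    · obtain ⟨y, hy, rfl⟩ := h2 hzO
      refine ⟨y, ⟨⟨fun h => h02 (by rw [mem_singleton_iff] at h; rwa [← h]), hzb⟩, ?_⟩, rfl⟩
      rintro ⟨h, -⟩
      exact (disjoint_left.1 hd h) hy
    · obtain ⟨y, hy0, rfl⟩ := hs z (by simpa using hz0)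
      exact ⟨y, ⟨⟨by simpa using hy0, hzb⟩, fun h => hzO h.2.2⟩, rfl⟩
  calc volume (ball (0 : E) 1) + volume O
      ≤ (∫⁻ y in T \ s1, ENNReal.ofReal |(fderiv ℝ F y).det|)
        + ∫⁻ y in s1, ENNReal.ofReal |(fderiv ℝ F y).det| := add_le_add e2 e1
    _ = ∫⁻ y in (T \ s1) ∪ s1, ENNReal.ofReal |(fderiv ℝ F y).det| :=
        (lintegral_union hs1o.measurableSet disjoint_sdiff_left).symm
    _ = ∫⁻ y in T, ENNReal.ofReal |(fderiv ℝ F y).det| := by rw [sdiff_union_of_subset hs1T]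
    _ = ∫⁻ y, T.indicator (fun y => ENNReal.ofReal |(fderiv ℝ F y).det|) y :=
        (lintegral_indicator hTo.measurableSet _).symm
    _ ≤ ∫⁻ y, {y : E | ‖F y‖ < 1}.indicator (fun y => ENNReal.ofReal |(fderiv ℝ F y).det|) y := by
        refine lintegral_mono (fun y => indicator_le_indicator_of_subset ?_ (fun _ => zero_le) y)
        intro y hy
        have := hy.2
        simpa using this

end Crofton

end Pool.Agent.Helper19.HO
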